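import Mathlib

set_option autoImplicit false

namespace H749Z.Bud
open Finset

open Classical in
/-- number of words of length `T` with the property `B` -/
noncomputable def cnt {E : Type} [Fintype E] (T : ℕ) (B : List E → Prop) : ℕ :=
  (univ.filter fun f : Fin T → E => B (List.ofFn f)).card

variable {E : Type} [Fintype E]

theorem cnt_zero (B : List E → Prop) : cnt 0 B ≤ 1 := by
  classical
  refine (card_le_univ _).trans ?_
  simp

theorem cnt_zero' (B : List E → Prop) (h : ¬ B []) : cnt 0 B = 0 := by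
  classical
  simp [cnt, h]

theorem cnt_succ (T : ℕ) (B : List E → Prop) :
    cnt (T + 1) B = ∑ e, cnt T fun l => B (e :: l) := by
  classical
  simp only [cnt, card_filter]
  rw [← (Fin.consEquiv fun _ : Fin (T + 1) => E).sum_comp, Fintype.sum_prod_type]
  refine sum_congr rfl fun e _ => sum_congr rfl fun f _ => ?_
  simp [Fin.consEquiv, List.ofFn_succ]

theorem cnt_mono (T : ℕ) {B B' : List E → Prop} (h : ∀ l, B l → B' l) : cnt T B ≤ cnt T B' := by
  classical
  refine card_le_card fun f hf => ?_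
  simp only [mem_filter, mem_univ, true_and] at hf ⊢
  exact h _ hf

theorem cnt_union {ι : Type} (s : Finset ι) (T : ℕ) (B : ι → List E → Prop) :
    cnt T (fun l => ∃ i ∈ s, B i l) ≤ ∑ i ∈ s, cnt T (B i) := by
  classical
  refine le_trans (card_le_card ?_) (card_biUnion_le (s := s)
    (t := fun i => univ.filter fun f : Fin T → E => B i (List.ofFn f))) |>.trans (le_of_eq ?_)
  · intro f hf
    simp only [mem_filter, mem_univ, true_and, mem_biUnion] at hf ⊢
    exact hf
  · refine sum_congr rfl fun i _ => ?_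
    unfold cnt; congr

theorem pow_step (T s : ℕ) : T ^ (s + 1) + (s + 1) * T ^ s ≤ (T + 1) ^ (s + 1) := by
  induction s with
  | zero => simp
  | succ s ih =>
    calc T ^ (s + 1 + 1) + (s + 1 + 1) * T ^ (s + 1)
        ≤ (T ^ (s + 1) + (s + 1) * T ^ s) * (T + 1) := by
          simp only [pow_succ]; nlinarith [Nat.zero_le (T ^ s), Nat.zero_le (s * T ^ s)]
      _ ≤ (T + 1) ^ (s + 1) * (T + 1) := Nat.mul_le_mul_right _ ih
      _ = _ := by ring

theorem cnt_subset (T : ℕ) (S : Finset E) :
    cnt T (fun l => ∀ e ∈ S, e ∈ l) * Fintype.card E ^ S.card ≤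
      T ^ S.card * Fintype.card E ^ T := by
  classical
  induction T generalizing S with
  | zero =>
    rcases S.eq_empty_or_nonempty with rfl | ⟨e, he⟩
    · simpa using cnt_zero _
    · rw [cnt_zero' _ (fun h => by simpa using h e he)]; simp
  | succ T ih =>
    rw [cnt_succ, sum_mul]
    set N := Fintype.card E with hN
    have key : ∀ e, cnt T (fun l => ∀ x ∈ S, x ∈ e :: l) * N ^ S.card ≤
        T ^ S.card * N ^ T + if e ∈ S then T ^ (S.card - 1) * N ^ (T + 1) else 0 := by
      intro e
      have h1 : cnt T (fun l => ∀ x ∈ S, x ∈ e :: l) ≤ cnt T fun l => ∀ x ∈ S.erase e, x ∈ l := by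
        refine cnt_mono T fun l hl x hx => ?_
        rcases List.mem_cons.1 (hl x (mem_of_mem_erase hx)) with h | h
        · exact absurd h (ne_of_mem_erase hx)
        · exact h
      refine (Nat.mul_le_mul_right _ h1).trans ?_
      have h2 := ih (S.erase e)
      split_ifs with he
      · rw [card_erase_of_mem he] at h2
        have h3 : S.card = S.card - 1 + 1 := by have := card_pos.2 ⟨e, he⟩; omega
        refine le_trans ?_ (Nat.le_add_left _ _)
        calc _ = cnt T (fun l => ∀ x ∈ S.erase e, x ∈ l) * N ^ (S.card - 1) * N := by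
              conv_lhs => rw [h3, pow_succ]
              ring
          _ ≤ T ^ (S.card - 1) * N ^ T * N := Nat.mul_le_mul_right _ h2
          _ = _ := by ring
      · rw [erase_eq_of_notMem he] at h2 ⊢
        simpa using h2
    refine (sum_le_sum fun e _ => key e).trans ?_
    rw [sum_add_distrib, sum_ite_mem, univ_inter, sum_const, sum_const, card_univ, ← hN,
      smul_eq_mul, smul_eq_mul]
    rcases h : S.card with _ | s
    · simp [pow_succ, mul_comm]
    · have := pow_step T s
      rw [Nat.add_sub_cancel]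
      calc N * (T ^ (s + 1) * N ^ T) + (s + 1) * (T ^ s * N ^ (T + 1))
          = (T ^ (s + 1) + (s + 1) * T ^ s) * N ^ (T + 1) := by ring
        _ ≤ _ := Nat.mul_le_mul_right _ this

theorem ofFn_take {N t : ℕ} (ht : t ≤ N) (σ : Fin N → E) :
    List.ofFn (σ ∘ Fin.castLE ht) = (List.ofFn σ).take t := by
  apply List.ext_getElem
  · simp [ht]
  · intro i h1 h2; simp

theorem card_fibre {N t : ℕ} (hN : Fintype.card E = N) (ht : t ≤ N) (f : Fin t → E) :
    Nat.card {σ : Fin N ≃ E // σ ∘ Fin.castLE ht = f} ≤ (N - t).factorial := by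
  classical
  by_cases hf : Function.Injective f
  swap
  · have : IsEmpty {σ : Fin N ≃ E // σ ∘ Fin.castLE ht = f} :=
      ⟨fun σ => hf (σ.2 ▸ σ.1.injective.comp (Fin.castLE_injective ht))⟩
    simp
  let Φ : {σ : Fin N ≃ E // σ ∘ Fin.castLE ht = f} →
      ({i : Fin N // ¬ (i : ℕ) < t} ↪ {e : E // e ∉ Set.range f}) := fun σ =>
    ⟨fun i => ⟨σ.1 i.1, by
      rintro ⟨j, hj⟩
      have h1 : σ.1 (Fin.castLE ht j) = σ.1 i.1 := (congrFun σ.2 j).trans hj
      have h2 := σ.1.injective h1
      apply i.2; rw [← h2]; exact j.2⟩,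
      fun i j hij => Subtype.ext (σ.1.injective (congrArg Subtype.val hij))⟩
  have hΦ : Function.Injective Φ := by
    intro σ τ h
    apply Subtype.ext
    ext i
    by_cases hi : (i : ℕ) < t
    · have h1 := congrFun σ.2 ⟨i, hi⟩
      have h2 := congrFun τ.2 ⟨i, hi⟩
      exact h1.trans h2.symm
    · exact congrArg Subtype.val (DFunLike.congr_fun h ⟨i, hi⟩)
  refine (Nat.card_le_card_of_injective Φ hΦ).trans (le_of_eq ?_)
  rw [Nat.card_eq_fintype_card, Fintype.card_embedding_eq]
  have h1 : Fintype.card {i : Fin N // ¬ (i : ℕ) < t} = N - t := by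
    rw [Fintype.card_subtype_compl, Fintype.card_fin, Fintype.card_fin_lt_of_le ht]
  have h2 : Fintype.card {e : E // e ∉ Set.range f} = N - t := by
    rw [Fintype.card_subtype_compl, hN, Set.card_range_of_injective hf, Fintype.card_fin]
  rw [h1, h2, Nat.descFactorial_self]

theorem card_le_cnt {N t : ℕ} (hN : Fintype.card E = N) (ht : t ≤ N) (B : List E → Prop) :
    Nat.card {σ : Fin N ≃ E // B ((List.ofFn σ).take t)} ≤ cnt t B * (N - t).factorial := by
  classical
  rw [Nat.card_eq_fintype_card, Fintype.card_subtype, cnt]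
  rw [card_eq_sum_card_fiberwise (f := fun σ : Fin N ≃ E => σ ∘ Fin.castLE ht)
    (t := univ.filter fun f : Fin t → E => B (List.ofFn f))]
  · rw [← smul_eq_mul]
    refine sum_le_card_nsmul _ _ _ fun f _ => le_trans ?_ (card_fibre hN ht f)
    rw [Nat.card_eq_fintype_card, Fintype.card_subtype]
    refine card_le_card fun σ hσ => ?_
    simp only [mem_filter, mem_univ, true_and] at hσ ⊢
    exact hσ.2
  · intro σ hσ
    simp only [coe_filter, mem_univ, true_and, Set.mem_ofPred_eq] at hσ ⊢
    rwa [ofFn_take]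

theorem desc_ge {N t : ℕ} (h : 2 * t ^ 2 ≤ N) (hN : 0 < N) :
    (N : ℝ) ^ t ≤ 2 * N.descFactorial t := by
  have ht : t ≤ N := by nlinarith [Nat.le_self_pow (two_ne_zero) t]
  have h1 : ((N - t : ℕ) : ℝ) ^ t ≤ N.descFactorial t := by
    have := Nat.pow_sub_le_descFactorial N t
    have h2 : (N - t) ^ t ≤ (N + 1 - t) ^ t := Nat.pow_le_pow_left (by omega) _
    exact_mod_cast h2.trans this
  have hN' : (0 : ℝ) < N := by exact_mod_cast hN
  have ht' : (t : ℝ) ≤ N := by exact_mod_cast ht
  have h' : 2 * (t : ℝ) ^ 2 ≤ N := by exact_mod_cast h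
  have h2 : ((N - t : ℕ) : ℝ) = N * (1 + -(t / N)) := by
    rw [Nat.cast_sub ht]; field_simp; ring
  have h3 : (t : ℝ) / N ≤ 1 := by rwa [div_le_one hN']
  have h4 := one_add_mul_le_pow (a := -((t : ℝ) / N)) (by linarith) t
  have h5 : (t : ℝ) * (t / N) ≤ 1 / 2 := by
    rw [← mul_div_assoc, div_le_iff₀ hN']; nlinarith
  rw [h2, mul_pow] at h1
  have h6 : (0 : ℝ) < (N : ℝ) ^ t := by positivity
  nlinarith

theorem transfer {N t : ℕ} (hN : Fintype.card E = N) (h : 2 * t ^ 2 ≤ N) (h0 : 0 < N)
    (B : List E → Prop) :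
    (Nat.card {σ : Fin N ≃ E // B ((List.ofFn σ).take t)} : ℝ) / Nat.card (Fin N ≃ E) ≤
      2 * (cnt t B / (N : ℝ) ^ t) := by
  classical
  have ht : t ≤ N := by nlinarith [Nat.le_self_pow (two_ne_zero) t]
  have h1 : Nat.card (Fin N ≃ E) = (N - t).factorial * N.descFactorial t := by
    rw [Nat.factorial_mul_descFactorial ht, Nat.card_eq_fintype_card,
      Fintype.card_equiv (Fintype.equivFinOfCardEq hN).symm, Fintype.card_fin]
  have h2 : (Nat.card {σ : Fin N ≃ E // B ((List.ofFn σ).take t)} : ℝ) ≤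
      cnt t B * (N - t).factorial := by exact_mod_cast card_le_cnt hN ht B
  have h3 := desc_ge h h0
  have h4 : (0 : ℝ) < (N : ℝ) ^ t := by positivity
  have h5 : (0 : ℝ) < (N - t).factorial := by exact_mod_cast Nat.factorial_pos _
  have h6 : (0 : ℝ) < N.descFactorial t := by linarith
  rw [h1, Nat.cast_mul, div_le_iff₀ (by positivity)]
  refine h2.trans ?_
  have h7 : (0 : ℝ) ≤ cnt t B := Nat.cast_nonneg _
  have h8 : 1 ≤ 2 * (N.descFactorial t : ℝ) / (N : ℝ) ^ t := by rwa [one_le_div h4]
  calc (cnt t B : ℝ) * (N - t).factorial = cnt t B * (N - t).factorial * 1 := by ring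
    _ ≤ cnt t B * (N - t).factorial * (2 * (N.descFactorial t : ℝ) / (N : ℝ) ^ t) :=
        mul_le_mul_of_nonneg_left h8 (by positivity)
    _ = _ := by ring

end H749Z.Bud
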