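import Mathlib

set_option autoImplicit false

namespace H749Z.Bud
open Filter

/-- The edges of `K_n`. -/
abbrev Edge (n : ℕ) := {e : Sym2 (Fin n) // ¬ e.IsDiag}

/-- The orderings `e_1, …, e_N` of the edges of `K_n` (`σ i` is `e_{i+1}`). -/
abbrev Ordering (n : ℕ) := Fin (n.choose 2) ≃ Edge n

/-- Probability of an event for a uniformly random ordering. -/
noncomputable def prob (n : ℕ) (A : Ordering n → Prop) : ℝ :=
  (Nat.card {σ // A σ} : ℝ) / Nat.card (Ordering n)

/-- The events `A n` hold asymptotically almost surely. -/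
def Aas (A : (n : ℕ) → Ordering n → Prop) : Prop :=
  Tendsto (fun n => prob n (A n)) atTop (nhds 1)

/-- The graph on `[n]` whose edges are the `σ i` with `i ∈ I`. -/
def graphOf {n : ℕ} (σ : Ordering n) (I : Set (Fin (n.choose 2))) : SimpleGraph (Fin n) :=
  SimpleGraph.fromEdgeSet {e | ∃ i ∈ I, (σ i).1 = e}

/-- `G_t`, the graph of the first `t` edges. -/
def procGraph {n : ℕ} (σ : Ordering n) (t : ℕ) : SimpleGraph (Fin n) :=
  graphOf σ {i | (i : ℕ) < t}

/-- The hitting time of a family of graphs. -/
noncomputable def hitting {n : ℕ} (P : Set (SimpleGraph (Fin n))) (σ : Ordering n) : ℕ :=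
  sInf {t | procGraph σ t ∈ P}

/-- A deterministic strategy: given the list `e_1, …, e_i` of the edges shown so far, it says
whether the last one is bought. -/
abbrev Strategy (n : ℕ) := List (Edge n) → Prop

/-- The positions among the first `t` at which the strategy buys. -/
def bought {n : ℕ} (S : Strategy n) (σ : Ordering n) (t : ℕ) : Set (Fin (n.choose 2)) :=
  {i | (i : ℕ) < t ∧ S ((List.ofFn σ).take (i + 1))}

/-- A graph property: for each `n` a family of graphs on `[n]`. -/
abbrev Property := (n : ℕ) → Set (SimpleGraph (Fin n))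

/-- Closed under isomorphism. -/
def IsoClosed (P : Property) : Prop :=
  ∀ n (G H : SimpleGraph (Fin n)), Nonempty (G ≃g H) → G ∈ P n → H ∈ P n

/-- Closed under adding edges. -/
def Increasing (P : Property) : Prop :=
  ∀ n (G H : SimpleGraph (Fin n)), G ≤ H → G ∈ P n → H ∈ P n

/-- The edge-minimal graphs of the property have degrees bounded independently of `n`. -/
def BoundedDegree (P : Property) : Prop :=
  ∃ D : ℕ, ∀ n (G : SimpleGraph (Fin n)), Minimal (· ∈ P n) G → ∀ v, (G.neighborSet v).ncard ≤ D

end H749Z.Bud
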