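import Pool.Agent.H749Z.Bud.Defs
import Pool.Agent.H749Z.Bud.Count

set_option autoImplicit false

namespace H749Z.Bud
open Finset

/-- size of the subtree at `a` of the heap tree on `1..k` -/
def sz (k a : ℕ) : ℕ := if h : 0 < a ∧ a ≤ k then 1 + sz k (2 * a) + sz k (2 * a + 1) else 0
termination_by k + 1 - a
decreasing_by all_goals omega

theorem sz_eq {k a : ℕ} (h0 : 0 < a) (h : a ≤ k) :
    sz k a = 1 + sz k (2 * a) + sz k (2 * a + 1) := by
  rw [sz, dif_pos ⟨h0, h⟩]

theorem sz_zero {k a : ℕ} (h : k < a) : sz k a = 0 := by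
  rw [sz, dif_neg (by omega)]

theorem sz_pos {k a : ℕ} (h0 : 0 < a) (h : a ≤ k) : 1 ≤ sz k a := by
  rw [sz_eq h0 h]; omega

theorem sz_le (k : ℕ) : ∀ j a, 0 < a → k + 1 - a ≤ j → a * (sz k a + 1) ≤ max a (2 * k) := by
  intro j
  induction j with
  | zero => intro a _ h; rw [sz_zero (by omega)]; simp
  | succ j ih =>
    intro a h0 h
    by_cases ha : a ≤ k
    · have h1 := ih (2 * a) (by omega) (by omega)
      have h2 := ih (2 * a + 1) (by omega) (by omega)
      rw [sz_eq h0 ha]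
      have h3 : max (2 * a) (2 * k) = 2 * k := by omega
      have h4 : max (2 * a + 1) (2 * k) ≤ 2 * k + 1 := by omega
      have h5 : max a (2 * k) = 2 * k := by omega
      rw [h3] at h1
      rw [h5]
      have h6 := h2.trans h4
      have h7 : 2 * (a * (1 + sz k (2 * a) + sz k (2 * a + 1) + 1)) ≤ 2 * k + (2 * k + 1) := by
        nlinarith [Nat.zero_le (sz k (2 * a + 1))]
      omega
    · rw [sz_zero (by omega)]; simp

theorem sz_le' {k a : ℕ} (h0 : 0 < a) (h : a ≤ k) : a * sz k a ≤ 2 * k := by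
  have := sz_le k _ a h0 le_rfl
  have h5 : max a (2 * k) = 2 * k := by omega
  rw [h5] at this; nlinarith

theorem prod_sz_le (k : ℕ) : (∏ a ∈ Icc 1 k, (sz k a : ℝ)) ≤ 8 ^ k := by
  have h1 : (∏ a ∈ Icc 1 k, (a : ℝ)) * ∏ a ∈ Icc 1 k, (sz k a : ℝ) ≤ (2 * k) ^ k := by
    rw [← prod_mul_distrib]
    refine (prod_le_prod (g := fun _ => (2 * k : ℝ)) (fun _ _ => by positivity) fun a ha => ?_).trans
      (by simp)
    have := mem_Icc.1 ha
    exact_mod_cast sz_le' this.1 this.2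
  have h2 : (∏ a ∈ Icc 1 k, (a : ℝ)) = k.factorial := by
    rw [← Nat.cast_prod, ← Finset.prod_Ico_id_eq_factorial]; rfl
  have h3 := Real.pow_div_factorial_le_exp (k : ℝ) (Nat.cast_nonneg k) k
  have h4 : (0 : ℝ) < k.factorial := by exact_mod_cast Nat.factorial_pos _
  rw [div_le_iff₀ h4] at h3
  have h5 : Real.exp k ≤ 4 ^ k := by
    rw [← mul_one (k : ℝ), Real.exp_nat_mul]
    exact pow_le_pow_left₀ (Real.exp_pos _).le (by linarith [Real.exp_one_lt_d9]) _
  rw [h2, mul_pow] at h1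
  have h6 : (8 : ℝ) ^ k = 2 ^ k * 4 ^ k := by rw [← mul_pow]; norm_num
  have h7 : (0 : ℝ) < 2 ^ k := by positivity
  refine le_of_mul_le_mul_left (h1.trans ?_) h4
  rw [h6]
  calc (2 : ℝ) ^ k * k ^ k ≤ 2 ^ k * (4 ^ k * k.factorial) :=
        mul_le_mul_of_nonneg_left (h3.trans (mul_le_mul_of_nonneg_right h5 h4.le)) h7.le
    _ = _ := by ring

/-- filled nodes (tree, node) and their vertices -/
abbrev St := Finset (ℕ × ℕ) × (ℕ × ℕ → ℕ)

/-- an edge as a pair of numbers -/
def val {n : ℕ} (e : Edge n) : Sym2 ℕ := Sym2.map Fin.val e.1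

/-- open nodes -/
def Opn (k : ℕ) (F : Finset (ℕ × ℕ)) (p : ℕ × ℕ) : Prop :=
  p ∉ F ∧ 2 ≤ p.2 ∧ p.2 ≤ k ∧ (p.1, p.2 / 2) ∈ F

/-- the edge fills the node `x.1` with the vertex `x.2` -/
def Fit {n : ℕ} (k : ℕ) (s : St) (e : Edge n) (x : (ℕ × ℕ) × ℕ) : Prop :=
  Opn k s.1 x.1 ∧ x.2 ∉ s.1.image s.2 ∧ x.2 % 2 = x.1.2 % 2 ∧
    val e = s(s.2 (x.1.1, x.1.2 / 2), x.2)

open Classical in
/-- one step -/
noncomputable def step {n : ℕ} (k : ℕ) (s : St) (e : Edge n) : St :=
  if h : ∃ x, Fit k s e x then (insert h.choose.1 s.1, Function.update s.2 h.choose.1 h.choose.2)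
  else s

/-- invariant -/
structure Inv (n m k : ℕ) (s : St) : Prop where
  mem : ∀ p ∈ s.1, p.1 < m ∧ 1 ≤ p.2 ∧ p.2 ≤ k ∧ s.2 p < n
  root : ∀ i < m, (i, 1) ∈ s.1
  par : ∀ p ∈ s.1, 2 ≤ p.2 → (p.1, p.2 / 2) ∈ s.1
  inj : Set.InjOn s.2 s.1

variable {n m k : ℕ}

theorem Inv.card_le {s : St} (h : Inv n m k s) : s.1.card ≤ m * k := by
  refine (card_le_card (t := range m ×ˢ Icc 1 k) fun p hp => ?_).trans (by simp)
  have := h.mem p hp
  simp only [mem_product, mem_range, mem_Icc]; omega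

theorem Fit.lt {s : St} {e : Edge n} {x : (ℕ × ℕ) × ℕ} (h : Fit k s e x) : x.2 < n := by
  have h1 : x.2 ∈ val e := by rw [h.2.2.2]; exact Sym2.mem_mk_right _ _
  obtain ⟨a, -, ha⟩ := Sym2.mem_map.1 h1
  rw [← ha]; exact a.2

theorem Fit.uniq {s : St} (hs : Inv n m k s) {e : Edge n} {x y : (ℕ × ℕ) × ℕ} (h : Fit k s e x)
    (h' : Fit k s e y) : x = y := by
  have h1 := h.2.2.2.symm.trans h'.2.2.2
  rcases Sym2.eq_iff.1 h1 with ⟨a, b⟩ | ⟨a, b⟩
  · have h2 := hs.inj h.1.2.2.2 h'.1.2.2.2 a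
    have h3 := h.2.2.1
    have h4 := h'.2.2.1
    rw [Prod.ext_iff] at h2
    simp only at h2
    refine Prod.ext (Prod.ext h2.1 (by omega)) b
  · exact absurd (mem_image.2 ⟨_, h'.1.2.2.2, b.symm⟩) h.2.1

theorem step_fit {s : St} (hs : Inv n m k s) {e : Edge n} {x : (ℕ × ℕ) × ℕ} (h : Fit k s e x) :
    step k s e = (insert x.1 s.1, Function.update s.2 x.1 x.2) := by
  have h1 : ∃ x, Fit k s e x := ⟨x, h⟩
  rw [step, dif_pos h1, Fit.uniq hs h1.choose_spec h]

theorem step_not {s : St} {e : Edge n} (h : ¬ ∃ x, Fit k s e x) : step k s e = s := by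
  rw [step, dif_neg h]

theorem Inv.step {s : St} (hs : Inv n m k s) (e : Edge n) : Inv n m k (step k s e) := by
  by_cases h : ∃ x, Fit k s e x
  swap
  · rwa [step_not h]
  obtain ⟨x, h⟩ := h
  rw [step_fit hs h]
  have hu : ∀ p ∈ s.1, Function.update s.2 x.1 x.2 p = s.2 p := fun p hp =>
    Function.update_of_ne (fun e : p = x.1 => h.1.1 (e ▸ hp)) _ _
  constructor
  · intro p hp
    rcases mem_insert.1 hp with rfl | hp
    · have := hs.mem _ h.1.2.2.2
      have h2 := h.1.2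
      exact ⟨this.1, by omega, h2.2.1, by simpa using h.lt⟩
    · simp only [hu p hp]; exact hs.mem p hp
  · intro i hi; exact mem_insert_of_mem (hs.root i hi)
  · intro p hp h2
    rcases mem_insert.1 hp with rfl | hp
    · exact mem_insert_of_mem h.1.2.2.2
    · exact mem_insert_of_mem (hs.par p hp h2)
  · intro p hp q hq hpq
    simp only [coe_insert, Set.mem_insert_iff, mem_coe] at hp hq
    rcases hp with rfl | hp <;> rcases hq with rfl | hq
    · rfl
    · simp only [hu q hq, Function.update_self] at hpq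
      exact absurd (mem_image.2 ⟨q, hq, hpq.symm⟩) h.2.1
    · simp only [hu p hp, Function.update_self] at hpq
      exact absurd (mem_image.2 ⟨p, hp, hpq⟩) h.2.1
    · simp only [hu p hp, hu q hq] at hpq
      exact hs.inj hp hq hpq

open Classical in
/-- total size of the open subtrees of tree `i` -/
noncomputable def rr (k : ℕ) (F : Finset (ℕ × ℕ)) (i : ℕ) : ℕ :=
  ∑ a ∈ Icc 2 k, if Opn k F (i, a) then sz k a else 0

/-- product of the sizes of the unfilled nodes of tree `i` -/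
noncomputable def pp (k : ℕ) (F : Finset (ℕ × ℕ)) (i : ℕ) : ℝ :=
  ∏ a ∈ Icc 1 k, if (i, a) ∈ F then 1 else (sz k a : ℝ)

/-- lower estimate for the chance that tree `i` is completed in `T` steps -/
noncomputable def psi (k : ℕ) (η : ℝ) (F : Finset (ℕ × ℕ)) (T i : ℕ) : ℝ :=
  η ^ rr k F i * (T.descFactorial (rr k F i) : ℝ) / pp k F i

theorem one_le_pp (F : Finset (ℕ × ℕ)) (i : ℕ) : 1 ≤ pp k F i := by
  refine one_le_prod fun a ha => ?_
  have := mem_Icc.1 ha
  split_ifs
  · rfl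
  · exact_mod_cast sz_pos this.1 this.2

theorem pp_le (F : Finset (ℕ × ℕ)) (i : ℕ) : pp k F i ≤ 8 ^ k := by
  refine le_trans (prod_le_prod (fun a _ => by split_ifs <;> positivity) fun a ha => ?_)
    (prod_sz_le k)
  have := mem_Icc.1 ha
  split_ifs
  · exact_mod_cast sz_pos this.1 this.2
  · rfl

theorem psi_other (η : ℝ) (F : Finset (ℕ × ℕ)) (T : ℕ) {p : ℕ × ℕ} {i : ℕ} (h : i ≠ p.1) :
    psi k η (insert p F) T i = psi k η F T i := by
  have h0 : ∀ a, (i, a) ∈ insert p F ↔ (i, a) ∈ F := fun a => by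
    rw [mem_insert, or_iff_right]; rintro rfl; exact h rfl
  have h1 : rr k (insert p F) i = rr k F i := by
    refine sum_congr rfl fun a _ => ?_
    have : Opn k (insert p F) (i, a) ↔ Opn k F (i, a) := by simp only [Opn, h0]
    by_cases hh : Opn k F (i, a)
    · rw [if_pos hh, if_pos (this.2 hh)]
    · rw [if_neg hh, if_neg (mt this.1 hh)]
  have h2 : pp k (insert p F) i = pp k F i := by
    refine prod_congr rfl fun a _ => ?_
    simp only [h0]
  rw [psi, psi, h1, h2]

theorem pp_insert {F : Finset (ℕ × ℕ)} {i a : ℕ} (h : Opn k F (i, a)) :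
    pp k (insert (i, a) F) i * sz k a = pp k F i := by
  have ha : a ∈ Icc 1 k := by have := h.2; simp only [mem_Icc] at *; omega
  rw [pp, pp, ← mul_prod_erase _ _ ha, ← mul_prod_erase _ _ ha, if_pos (mem_insert_self _ _),
    if_neg h.1, one_mul, mul_comm]
  congr 1
  refine prod_congr rfl fun b hb => ?_
  have : (i, b) ∈ insert (i, a) F ↔ (i, b) ∈ F := by
    rw [mem_insert, or_iff_right]
    intro e; exact ne_of_mem_erase hb (Prod.ext_iff.1 e).2
  simp only [this]

theorem rr_insert {F : Finset (ℕ × ℕ)} (hF : ∀ p ∈ F, 2 ≤ p.2 → (p.1, p.2 / 2) ∈ F) {i a : ℕ}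
    (h : Opn k F (i, a)) : rr k (insert (i, a) F) i + 1 = rr k F i := by
  classical
  obtain ⟨h1, h2, h3, h4⟩ := h
  simp only at h2 h3 h4
  have e1 : ∀ c, 2 ≤ c → ∑ b ∈ Icc 2 k, (if b = c then sz k b else 0) = sz k c := by
    intro c hc
    rw [sum_ite_eq']
    split_ifs with h
    · rfl
    · rw [sz_zero]; simp only [mem_Icc] at h; omega
  have key : rr k (insert (i, a) F) i + ∑ b ∈ Icc 2 k, (if b = a then sz k b else 0) =
      rr k F i + ∑ b ∈ Icc 2 k, (if b = 2 * a then sz k b else 0) +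
        ∑ b ∈ Icc 2 k, (if b = 2 * a + 1 then sz k b else 0) := by
    rw [rr, rr, ← sum_add_distrib, ← sum_add_distrib, ← sum_add_distrib]
    refine sum_congr rfl fun b hb => ?_
    have hb' := mem_Icc.1 hb
    by_cases e : b = a
    · subst e
      rw [if_neg (fun h => h.1 (mem_insert_self _ _)), if_pos rfl, if_pos ⟨h1, h2, h3, h4⟩,
        if_neg (by omega), if_neg (by omega)]
      omega
    · rw [if_neg e]
      by_cases e' : b / 2 = a
      · have hbF : (i, b) ∉ F := fun hh => h1 (e' ▸ hF _ hh hb'.1)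
        rw [if_pos, if_neg]
        · split_ifs <;> omega
        · intro hh; exact h1 (e' ▸ hh.2.2.2)
        · refine ⟨?_, hb'.1, hb'.2, by simp [e']⟩
          simp [hbF, e]
      · rw [if_neg (show b ≠ 2 * a by omega), if_neg (show b ≠ 2 * a + 1 by omega)]
        have : Opn k (insert (i, a) F) (i, b) ↔ Opn k F (i, b) := by
          simp [Opn, e, e']
        simp only [this, add_zero]
  rw [e1 a h2, e1 _ (by omega), e1 _ (by omega), sz_eq (by omega) h3] at key
  omega

theorem desc_succ (T u : ℕ) : (T + 1).descFactorial (u + 1) =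
    T.descFactorial (u + 1) + (u + 1) * T.descFactorial u := by
  rw [Nat.succ_descFactorial_succ, Nat.descFactorial_succ]
  by_cases h : u ≤ T
  · rw [← add_mul]; congr 1; omega
  · rw [Nat.descFactorial_eq_zero_iff_lt.2 (by omega)]; simp

theorem psi_nonneg {η : ℝ} (h : 0 ≤ η) (F : Finset (ℕ × ℕ)) (T i : ℕ) : 0 ≤ psi k η F T i := by
  have := one_le_pp (k := k) F i
  unfold psi; positivity

theorem psi_le_one {η : ℝ} (h : 0 ≤ η) {T : ℕ} (hT : 2 * η * T ≤ 1) (F : Finset (ℕ × ℕ)) (i : ℕ) :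
    psi k η F T i ≤ 1 := by
  have h1 := one_le_pp (k := k) F i
  rw [psi, div_le_one (by linarith)]
  refine le_trans ?_ h1
  have h2 : (T.descFactorial (rr k F i) : ℝ) ≤ T ^ rr k F i := by
    exact_mod_cast Nat.descFactorial_le_pow _ _
  refine (mul_le_mul_of_nonneg_left h2 (by positivity)).trans ?_
  rw [← mul_pow]
  exact pow_le_one₀ (by positivity) (by nlinarith [mul_nonneg h (Nat.cast_nonneg (α := ℝ) T)])

theorem psi_insert (η : ℝ) (T : ℕ) {F : Finset (ℕ × ℕ)}
    (hF : ∀ p ∈ F, 2 ≤ p.2 → (p.1, p.2 / 2) ∈ F) {i a u : ℕ} (h : Opn k F (i, a))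
    (hu : rr k F i = u + 1) :
    psi k η (insert (i, a) F) T i = η ^ u * (T.descFactorial u : ℝ) / pp k F i * sz k a := by
  have h1 := rr_insert hF h
  have h2 : rr k (insert (i, a) F) i = u := by omega
  have h3 := one_le_pp (k := k) (insert (i, a) F) i
  have h4 : (1 : ℝ) ≤ sz k a := by exact_mod_cast sz_pos (by have := h.2.1; omega) h.2.2.1
  rw [psi, h2, ← pp_insert h]
  field_simp

theorem psi_half {η : ℝ} (h0 : 0 ≤ η) {T : ℕ} (hT : 2 * η * T ≤ 1) {F : Finset (ℕ × ℕ)}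
    (hF : ∀ p ∈ F, 2 ≤ p.2 → (p.1, p.2 / 2) ∈ F) {i a : ℕ} (h : Opn k F (i, a)) :
    2 * psi k η F T i ≤ psi k η (insert (i, a) F) T i := by
  have h1 := rr_insert hF h
  rw [psi_insert η T hF h h1.symm, psi, ← h1, Nat.descFactorial_succ]
  set u := rr k (insert (i, a) F) i
  have h4 : (1 : ℝ) ≤ sz k a := by exact_mod_cast sz_pos (by have := h.2.1; omega) h.2.2.1
  have h5 : ((T - u : ℕ) : ℝ) ≤ T := by exact_mod_cast Nat.sub_le _ _
  have h3 := one_le_pp (k := k) F i
  have h6 : 0 ≤ η ^ u * (T.descFactorial u : ℝ) / pp k F i := by positivity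
  have h7 : 2 * η * ((T - u : ℕ) : ℝ) ≤ sz k a := by nlinarith
  calc _ = η ^ u * (T.descFactorial u : ℝ) / pp k F i * (2 * η * ((T - u : ℕ) : ℝ)) := by
        push_cast; ring
    _ ≤ _ := mul_le_mul_of_nonneg_left h7 h6

open Classical in
theorem psi_succ (η : ℝ) (T : ℕ) {F : Finset (ℕ × ℕ)}
    (hF : ∀ p ∈ F, 2 ≤ p.2 → (p.1, p.2 / 2) ∈ F) (i : ℕ) :
    psi k η F (T + 1) i = psi k η F T i +
      η * ∑ a ∈ Icc 2 k, if Opn k F (i, a) then psi k η (insert (i, a) F) T i else 0 := by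
  rcases hu : rr k F i with _ | u
  · rw [sum_eq_zero]
    · simp [psi, hu]
    · intro a _
      rw [if_neg]
      intro h
      have := rr_insert hF h
      omega
  · have e : ∑ a ∈ Icc 2 k, (if Opn k F (i, a) then psi k η (insert (i, a) F) T i else 0) =
        η ^ u * (T.descFactorial u : ℝ) / pp k F i * (u + 1 : ℕ) := by
      rw [← hu, rr, Nat.cast_sum, mul_sum]
      refine sum_congr rfl fun a _ => ?_
      split_ifs with h
      · exact psi_insert η T hF h hu
      · simp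
    rw [e, psi, psi, hu, desc_succ]
    push_cast; ring

theorem edge_exists {u v : ℕ} (hu : u < n) (hv : v < n) (h : u ≠ v) :
    ∃ e : Edge n, val e = s(u, v) :=
  ⟨⟨s(⟨u, hu⟩, ⟨v, hv⟩), by simpa using h⟩, rfl⟩

open Classical in
theorem count_fit {s : St} (hs : Inv n m k s) {p : ℕ × ℕ} (hp : Opn k s.1 p) :
    n / 2 - m * k ≤ (univ.filter fun e : Edge n => ∃ v, Fit k s e (p, v)).card := by
  set A := ((range (n / 2)).image fun j => 2 * j + p.2 % 2) \ s.1.image s.2 with hA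
  have h1 : n / 2 - m * k ≤ A.card := by
    refine le_trans ?_ (le_card_sdiff _ _)
    rw [card_image_of_injective _ (fun a b h => by simpa using h), card_range]
    have := (card_image_le (s := s.1) (f := s.2)).trans hs.card_le
    omega
  refine h1.trans ?_
  have h2 : ∀ v ∈ A, ∃ e : Edge n, Fit k s e (p, v) := by
    intro v hv
    obtain ⟨h3, h4⟩ := mem_sdiff.1 hv
    obtain ⟨j, hj, rfl⟩ := mem_image.1 h3
    have hj' := mem_range.1 hj
    obtain ⟨e, he⟩ := edge_exists (hs.mem _ hp.2.2.2).2.2.2 (show 2 * j + p.2 % 2 < n by omega)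
      (fun h => h4 (mem_image.2 ⟨_, hp.2.2.2, h⟩))
    exact ⟨e, hp, h4, by simp only; omega, he⟩
  choose f hf using h2
  rw [← card_attach]
  refine card_le_card_of_injOn (fun v => f v.1 v.2) (fun v _ => ?_) fun v _ w _ h => ?_
  · simp only [coe_filter, mem_univ, true_and, Set.mem_ofPred_eq]
    exact ⟨_, hf v.1 v.2⟩
  · have h3 := hf v.1 v.2
    simp only at h
    rw [h] at h3
    exact Subtype.ext (Prod.ext_iff.1 (Fit.uniq hs h3 (hf w.1 w.2))).2

/-- the total potential -/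
noncomputable def Psi (m k : ℕ) (η : ℝ) (F : Finset (ℕ × ℕ)) (T : ℕ) : ℝ :=
  ∑ i ∈ range m, psi k η F T i

theorem exp_neg_le {d : ℝ} (h0 : 0 ≤ d) (h1 : d ≤ 1) : Real.exp (-d) ≤ 1 - d / 2 := by
  have h2 := Real.add_one_le_exp d
  rw [Real.exp_neg, inv_le_iff_one_le_mul₀ (Real.exp_pos _)]
  nlinarith

theorem step_avg {η : ℝ} (h0 : 0 ≤ η) {T : ℕ} (hT : 2 * η * T ≤ 1)
    (hN : 0 < Fintype.card (Edge n))
    (hη : 4 * η * Fintype.card (Edge n) ≤ (n / 2 - m * k : ℕ)) {s : St} (hs : Inv n m k s) :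
    ∑ e : Edge n, Real.exp (-Psi m k η (step k s e).1 T) ≤
      Fintype.card (Edge n) * Real.exp (-Psi m k η s.1 (T + 1)) := by
  classical
  set N : ℝ := (Fintype.card (Edge n) : ℝ) with hNdef
  have hN' : 0 < N := by rw [hNdef]; exact_mod_cast hN
  let D : ℕ × ℕ → ℝ := fun p => psi k η (insert p s.1) T p.1 - psi k η s.1 T p.1
  have hD : ∀ p, Opn k s.1 p → psi k η (insert p s.1) T p.1 ≤ 2 * D p := by
    intro p hp
    have := psi_half h0 hT hs.par (i := p.1) (a := p.2) hp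
    have e : (p.1, p.2) = p := rfl
    rw [e] at this
    simp only [D]; linarith
  have hD0 : ∀ p, Opn k s.1 p → 0 ≤ D p := by
    intro p hp
    have := hD p hp
    have := psi_nonneg (k := k) h0 (insert p s.1) T p.1
    linarith
  have hD1 : ∀ p, D p ≤ 1 := by
    intro p
    have := psi_le_one (k := k) h0 hT (insert p s.1) p.1
    have := psi_nonneg (k := k) h0 s.1 T p.1
    simp only [D]; linarith
  let O := (range m ×ˢ Icc 2 k).filter (Opn k s.1)
  let d : Edge n → ℝ := fun e => ∑ p ∈ O, if ∃ v, Fit k s e (p, v) then D p else 0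
  have h1 : ∀ e, Real.exp (-Psi m k η (step k s e).1 T) ≤
      Real.exp (-Psi m k η s.1 T) * (1 - d e / 2) := by
    intro e
    by_cases h : ∃ x, Fit k s e x
    · obtain ⟨x, h⟩ := h
      have hm : x.1.1 < m := (hs.mem _ h.1.2.2.2).1
      have hx : x.1 ∈ O := by
        have := h.1.2
        simp only [O, mem_filter, mem_product, mem_range, mem_Icc]
        exact ⟨⟨hm, this.1, this.2.1⟩, h.1⟩
      have e1 : d e = D x.1 := by
        simp only [d]
        rw [sum_eq_single_of_mem _ hx, if_pos ⟨x.2, h⟩]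
        intro p _ hp
        rw [if_neg]
        rintro ⟨v, hv⟩
        exact hp (Prod.ext_iff.1 (Fit.uniq hs hv h)).1
      have e2 : Psi m k η (step k s e).1 T = Psi m k η s.1 T + D x.1 := by
        rw [step_fit hs h, Psi, Psi, ← add_sum_erase _ _ (mem_range.2 hm),
          ← add_sum_erase _ _ (mem_range.2 hm),
          sum_congr rfl fun i hi => psi_other η s.1 T (ne_of_mem_erase hi)]
        simp only [D]; ring
      rw [e1, e2, neg_add, Real.exp_add]
      exact mul_le_mul_of_nonneg_left (exp_neg_le (hD0 _ h.1) (hD1 _)) (Real.exp_pos _).le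
    · have e1 : d e = 0 := sum_eq_zero fun p _ => if_neg fun ⟨v, hv⟩ => h ⟨_, hv⟩
      rw [step_not h, e1]; simp
  have h2 : 4 * η * N * ∑ p ∈ O, D p ≤ ∑ e, d e := by
    simp only [d]
    rw [sum_comm, mul_sum]
    refine sum_le_sum fun p hp => ?_
    have hp' := (mem_filter.1 hp).2
    rw [← sum_filter, sum_const, nsmul_eq_mul]
    refine mul_le_mul_of_nonneg_right (hη.trans ?_) (hD0 p hp')
    exact_mod_cast count_fit hs hp'
  have h3 : Psi m k η s.1 (T + 1) ≤ Psi m k η s.1 T + 2 * η * ∑ p ∈ O, D p := by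
    rw [Psi, Psi, sum_congr rfl fun i _ => psi_succ η T hs.par i, sum_add_distrib, ← mul_sum,
      mul_comm 2 η, mul_assoc]
    refine add_le_add_right (mul_le_mul_of_nonneg_left ?_ h0) _
    rw [mul_sum, sum_filter, sum_product]
    refine sum_le_sum fun i _ => sum_le_sum fun a _ => ?_
    split_ifs with h
    · exact hD _ h
    · rfl
  refine (sum_le_sum fun e _ => h1 e).trans ?_
  rw [← mul_sum, sum_sub_distrib, sum_const, card_univ, nsmul_eq_mul, mul_one, ← sum_div, ← hNdef]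
  set X := 2 * η * ∑ p ∈ O, D p
  have h4 : N - (∑ e, d e) / 2 ≤ N * Real.exp (-X) := by
    have := Real.add_one_le_exp (-X)
    have h5 : N * X ≤ (∑ e, d e) / 2 := by simp only [X]; linarith
    nlinarith
  calc _ ≤ Real.exp (-Psi m k η s.1 T) * (N * Real.exp (-X)) :=
        mul_le_mul_of_nonneg_left h4 (Real.exp_pos _).le
    _ = N * Real.exp (-(Psi m k η s.1 T + X)) := by rw [neg_add, Real.exp_add]; ring
    _ ≤ _ := mul_le_mul_of_nonneg_left (Real.exp_le_exp.2 (by linarith)) hN'.le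

/-- some tree is complete -/
def Done (m k : ℕ) (F : Finset (ℕ × ℕ)) : Prop := ∃ i < m, ∀ a ∈ Icc 1 k, (i, a) ∈ F

theorem psi_zero (η : ℝ) {s : St} (hs : Inv n m k s) (h : ¬ Done m k s.1) :
    Psi m k η s.1 0 = 0 := by
  classical
  refine sum_eq_zero fun i hi => ?_
  have hi' := mem_range.1 hi
  have h1 : ∃ a, a ∈ Icc 1 k ∧ (i, a) ∉ s.1 := by
    by_contra h2
    push Not at h2
    exact h ⟨i, hi', h2⟩
  have h2 := Nat.find_spec h1
  have h3 := fun b => Nat.find_min h1 (m := b)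
  set a := Nat.find h1
  have h4 := mem_Icc.1 h2.1
  have h5 : a ≠ 1 := fun e => h2.2 (e ▸ hs.root i hi')
  have h6 : Opn k s.1 (i, a) := by
    refine ⟨h2.2, by simp only; omega, h4.2, ?_⟩
    by_contra h7
    exact h3 (a / 2) (by omega) ⟨mem_Icc.2 (by omega), h7⟩
  rw [psi, ← rr_insert hs.par h6]
  simp

theorem fail_le {η : ℝ} (h0 : 0 ≤ η) (hN : 0 < Fintype.card (Edge n))
    (hη : 4 * η * Fintype.card (Edge n) ≤ (n / 2 - m * k : ℕ)) (T : ℕ) (hT : 2 * η * T ≤ 1)
    {s : St} (hs : Inv n m k s) :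
    (cnt T (fun l : List (Edge n) => ¬ Done m k (l.foldl (step k) s).1) : ℝ) ≤
      (Fintype.card (Edge n) : ℝ) ^ T * Real.exp (-Psi m k η s.1 T) := by
  induction T generalizing s with
  | zero =>
    by_cases h : Done m k s.1
    · rw [cnt_zero' _ (by simpa using h)]; simp; positivity
    · rw [psi_zero η hs h]
      simpa using cnt_zero _
  | succ T ih =>
    have hT' : 2 * η * T ≤ 1 := by push_cast at hT; nlinarith
    rw [cnt_succ, Nat.cast_sum]
    refine (sum_le_sum fun e _ => ih hT' (hs.step e)).trans ?_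
    rw [← mul_sum, pow_succ, mul_assoc]
    exact mul_le_mul_of_nonneg_left (step_avg h0 hT' hN hη hs) (by positivity)

end H749Z.Bud
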