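import Pool.Agent.H749Z.Bud.Grow

set_option autoImplicit false

namespace H749Z.Bud
open Finset Filter

/-- number of nodes of the tree -/
def kk (n : ℕ) : ℕ := Nat.log 2 n / 64

/-- number of roots -/
def mm (n : ℕ) : ℕ := 2 ^ (32 * kk n)

/-- the graphs containing the heap tree -/
def HasTree : Property := fun n => {G | ∃ φ : ℕ → Fin n, Set.InjOn φ (Icc 1 (kk n) : Finset ℕ) ∧
  ∀ a ∈ Icc 2 (kk n), G.Adj (φ (a / 2)) (φ a)}

theorem iso_closed : IsoClosed HasTree := by
  rintro n G H ⟨e⟩ ⟨φ, h1, h2⟩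
  exact ⟨e ∘ φ, e.injective.comp_injOn h1, fun a ha => e.map_adj_iff.2 (h2 a ha)⟩

theorem increasing : Increasing HasTree := by
  rintro n G H e ⟨φ, h1, h2⟩
  exact ⟨φ, h1, fun a ha => e (h2 a ha)⟩

theorem bounded_degree : BoundedDegree HasTree := by
  classical
  refine ⟨3, fun n G hG v => ?_⟩
  obtain ⟨φ, h1, h2⟩ := hG.1
  let H : SimpleGraph (Fin n) :=
    SimpleGraph.fromRel fun x y => ∃ a ∈ Icc 2 (kk n), x = φ (a / 2) ∧ y = φ a
  have hH : H ≤ G := by
    rintro x y ⟨-, ⟨a, ha, rfl, rfl⟩ | ⟨a, ha, rfl, rfl⟩⟩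
    · exact h2 a ha
    · exact (h2 a ha).symm
  have hH' : H ∈ HasTree n := ⟨φ, h1, fun a ha => ⟨(h2 a ha).ne, Or.inl ⟨a, ha, rfl, rfl⟩⟩⟩
  have hGH : G ≤ H := hG.2 hH' hH
  by_cases hv : ∃ b ∈ Icc 1 (kk n), φ b = v
  · obtain ⟨b, hb, rfl⟩ := hv
    have : G.neighborSet (φ b) ⊆ {φ (b / 2), φ (2 * b), φ (2 * b + 1)} := by
      intro w hw
      obtain ⟨-, ⟨a, ha, e, rfl⟩ | ⟨a, ha, rfl, e⟩⟩ := hGH hw
      · have ha' := mem_Icc.1 ha
        have := h1 (mem_coe.2 hb) (mem_coe.2 (mem_Icc.2 (by omega))) e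
        have h3 : a = 2 * b ∨ a = 2 * b + 1 := by omega
        rcases h3 with rfl | rfl <;> simp
      · have ha' := mem_Icc.1 ha
        have := h1 (mem_coe.2 hb) (mem_coe.2 (mem_Icc.2 (by omega))) e
        subst this; simp
    refine (Set.ncard_le_ncard this (Set.toFinite _)).trans ?_
    refine (Set.ncard_insert_le _ _).trans ?_
    have := Set.ncard_insert_le (φ (2 * b)) {φ (2 * b + 1)}
    rw [Set.ncard_singleton] at this
    omega
  · have : G.neighborSet v = ∅ := by
      refine Set.eq_empty_of_forall_notMem fun w hw => hv ?_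
      obtain ⟨-, ⟨a, ha, e, rfl⟩ | ⟨a, ha, rfl, e⟩⟩ := hGH hw
      · have ha' := mem_Icc.1 ha
        exact ⟨a / 2, mem_Icc.2 (by omega), e.symm⟩
      · have ha' := mem_Icc.1 ha
        exact ⟨a, mem_Icc.2 (by omega), e.symm⟩
    simp [this]

/-- the initial state -/
def init (m : ℕ) : St := (range m ×ˢ {1}, fun p => p.1)

theorem inv_init {n m k : ℕ} (hm : m ≤ n) (hk : 1 ≤ k) : Inv n m k (init m) := by
  constructor
  · intro p hp
    simp only [init, mem_product, mem_range, mem_singleton] at hp ⊢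
    omega
  · intro i hi; simp [init, hi]
  · intro p hp h
    simp only [init, mem_product, mem_range, mem_singleton] at hp
    omega
  · intro p hp q hq h
    simp only [init, mem_coe, mem_product, mem_range, mem_singleton] at hp hq h
    exact Prod.ext h (by omega)

/-- the state after a list of edges -/
noncomputable def run {n : ℕ} (m k : ℕ) (l : List (Edge n)) : St := l.foldl (step k) (init m)

/-- Builder's strategy -/
def strat (n m k : ℕ) : Strategy n := fun l =>
  ∃ l' e, l = l' ++ [e] ∧ ∃ x, Fit k (run m k l') e x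

theorem strat_iff {n m k : ℕ} (l : List (Edge n)) (e : Edge n) :
    strat n m k (l ++ [e]) ↔ ∃ x, Fit k (run m k l) e x := by
  constructor
  · rintro ⟨l', e', h, h'⟩
    obtain ⟨h1, h2⟩ := List.append_inj' h rfl
    rw [h1, List.singleton_inj.1 h2]; exact h'
  · intro h; exact ⟨l, e, rfl, h⟩

theorem run_concat {n m k : ℕ} (l : List (Edge n)) (e : Edge n) :
    run m k (l ++ [e]) = step k (run m k l) e := by
  simp [run]

theorem take_succ' {n : ℕ} (σ : Ordering n) (j : Fin (n.choose 2)) :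
    (List.ofFn σ).take (j + 1) = (List.ofFn σ).take j ++ [σ j] := by
  rw [List.take_add_one]; simp

theorem run_spec {n m k : ℕ} (hm : m ≤ n) (hk : 1 ≤ k) (σ : Ordering n) (j : ℕ) :
    Inv n m k (run m k ((List.ofFn σ).take j)) ∧
    (bought (strat n m k) σ j).ncard ≤ (run m k ((List.ofFn σ).take j)).1.card ∧
    ∀ p ∈ (run m k ((List.ofFn σ).take j)).1, 2 ≤ p.2 → ∃ i ∈ bought (strat n m k) σ j,
      val (σ i) = s((run m k ((List.ofFn σ).take j)).2 (p.1, p.2 / 2),
        (run m k ((List.ofFn σ).take j)).2 p) := by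
  induction j with
  | zero =>
    refine ⟨inv_init hm hk, by simp [bought], fun p hp h => ?_⟩
    simp only [List.take_zero, run, List.foldl_nil, init, mem_product, mem_singleton] at hp
    omega
  | succ j ih =>
    by_cases hj : j < n.choose 2
    swap
    · have e1 : (List.ofFn σ).take (j + 1) = (List.ofFn σ).take j := by
        rw [List.take_of_length_le (by simp; omega), List.take_of_length_le (by simp; omega)]
      have e2 : bought (strat n m k) σ (j + 1) = bought (strat n m k) σ j := by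
        ext i
        have := i.2
        simp only [bought, Set.mem_ofPred_eq]
        constructor <;> exact fun h => ⟨by omega, h.2⟩
      rw [e1, e2]; exact ih
    obtain ⟨h1, h2, h3⟩ := ih
    have e1 := take_succ' σ ⟨j, hj⟩
    simp only at e1
    have e3 : bought (strat n m k) σ j ⊆ bought (strat n m k) σ (j + 1) :=
      fun i hi => ⟨Nat.lt_succ_of_lt hi.1, hi.2⟩
    have e4 : bought (strat n m k) σ (j + 1) ⊆ insert ⟨j, hj⟩ (bought (strat n m k) σ j) := by
      intro i hi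
      rcases Nat.lt_succ_iff_lt_or_eq.1 hi.1 with h | h
      · exact Or.inr ⟨h, hi.2⟩
      · exact Or.inl (Fin.ext h)
    rw [e1, run_concat]
    set s := run m k ((List.ofFn σ).take j) with hs
    refine ⟨h1.step _, ?_⟩
    by_cases h : ∃ x, Fit k s (σ ⟨j, hj⟩) x
    · have hb : (⟨j, hj⟩ : Fin (n.choose 2)) ∈ bought (strat n m k) σ (j + 1) :=
        ⟨Nat.lt_succ_self j, by simp only; rw [e1, strat_iff]; exact h⟩
      obtain ⟨x, h⟩ := h
      rw [step_fit h1 h]
      have hu : ∀ p ∈ s.1, Function.update s.2 x.1 x.2 p = s.2 p := fun p hp =>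
        Function.update_of_ne (fun e : p = x.1 => h.1.1 (e ▸ hp)) _ _
      constructor
      · simp only
        rw [card_insert_of_notMem h.1.1]
        exact (Set.ncard_le_ncard e4 (Set.toFinite _)).trans
          ((Set.ncard_insert_le _ _).trans (by omega))
      · intro p hp hp2
        rcases mem_insert.1 hp with rfl | hp
        · refine ⟨_, hb, ?_⟩
          simp only [Function.update_self, hu _ h.1.2.2.2]
          exact h.2.2.2
        · obtain ⟨i, hi, hi'⟩ := h3 p hp hp2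
          refine ⟨i, e3 hi, ?_⟩
          simp only [hu _ hp, hu _ (h1.par p hp hp2)]
          exact hi'
    · rw [step_not h]
      have e5 : bought (strat n m k) σ (j + 1) = bought (strat n m k) σ j := by
        refine Set.Subset.antisymm (fun i hi => ?_) e3
        rcases e4 hi with rfl | h'
        · have := hi.2
          simp only at this
          rw [e1, strat_iff] at this
          exact absurd this h
        · exact h'
      rw [e5]; exact ⟨h2, h3⟩

theorem tree_of_done {n : ℕ} (hm : mm n ≤ n) (hk : 1 ≤ kk n) (σ : Ordering n) (j : ℕ)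
    (h : Done (mm n) (kk n) (run (mm n) (kk n) ((List.ofFn σ).take j)).1) :
    graphOf σ (bought (strat n (mm n) (kk n)) σ j) ∈ HasTree n := by
  obtain ⟨h1, -, h3⟩ := run_spec hm hk σ j
  set s := run (mm n) (kk n) ((List.ofFn σ).take j)
  obtain ⟨i, hi, h4⟩ := h
  have hn : 0 < n := by omega
  let φ : ℕ → Fin n := fun a => ⟨s.2 (i, a) % n, Nat.mod_lt _ hn⟩
  have hφ : ∀ a ∈ Icc 1 (kk n), (φ a : ℕ) = s.2 (i, a) := fun a ha =>
    Nat.mod_eq_of_lt (h1.mem _ (h4 a ha)).2.2.2
  have hinj : Set.InjOn φ (Icc 1 (kk n) : Finset ℕ) := by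
    intro a ha b hb e
    have := h1.inj (h4 a ha) (h4 b hb) (by rw [← hφ a ha, ← hφ b hb, e])
    exact (Prod.ext_iff.1 this).2
  refine ⟨φ, hinj, fun a ha => ?_⟩
  have ha' := mem_Icc.1 ha
  have ha1 : a ∈ Icc 1 (kk n) := mem_Icc.2 (by omega)
  have ha2 : a / 2 ∈ Icc 1 (kk n) := mem_Icc.2 (by omega)
  obtain ⟨e, he, he'⟩ := h3 _ (h4 a ha1) ha'.1
  refine (SimpleGraph.fromEdgeSet_adj _).2 ⟨⟨e, he, ?_⟩, fun e => ?_⟩
  · apply Sym2.map.injective Fin.val_injective
    rw [Sym2.map_mk, hφ _ ha1, hφ _ ha2]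
    exact he'
  · have := hinj ha2 ha1 e
    omega

theorem card_edge (n : ℕ) : Fintype.card (Edge n) = n.choose 2 := by
  rw [Sym2.card_subtype_not_diag, Fintype.card_fin]

theorem prob_compl {n : ℕ} (A B : Ordering n → Prop) (h : ∀ σ, ¬ B σ → A σ) :
    1 - prob n B ≤ prob n A ∧ prob n A ≤ 1 := by
  classical
  have : Nonempty (Ordering n) := ⟨(Fintype.equivFinOfCardEq (card_edge n)).symm⟩
  have h0 : (0 : ℝ) < Nat.card (Ordering n) := by exact_mod_cast Nat.card_pos
  simp only [prob, Nat.card_eq_fintype_card] at h0 ⊢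
  constructor
  · rw [sub_le_iff_le_add, ← add_div, one_le_div h0]
    have h1 := Fintype.card_subtype_mono _ _ h
    rw [Fintype.card_subtype_compl] at h1
    have h2 := Fintype.card_subtype_le B
    exact_mod_cast (by omega)
  · rw [div_le_one h0]; exact_mod_cast Fintype.card_subtype_le A

theorem prob_or {n : ℕ} (A B : Ordering n → Prop) :
    prob n (fun σ => A σ ∨ B σ) ≤ prob n A + prob n B := by
  classical
  simp only [prob, Nat.card_eq_fintype_card]
  rw [← add_div]
  refine div_le_div_of_nonneg_right ?_ (Nat.cast_nonneg _)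
  exact_mod_cast Fintype.card_subtype_or A B

theorem aas_of (A B : (n : ℕ) → Ordering n → Prop) (u : ℕ → ℝ) (hu : Tendsto u atTop (nhds 0))
    (h : ∀ᶠ n in atTop, (∀ σ, ¬ B n σ → A n σ) ∧ prob n (B n) ≤ u n) : Aas A := by
  have h1 : Tendsto (fun n => 1 - u n) atTop (nhds 1) := by
    simpa using hu.const_sub 1
  refine tendsto_of_tendsto_of_tendsto_of_le_of_le' h1 tendsto_const_nhds ?_ ?_
  · filter_upwards [h] with n hn
    have := (prob_compl _ _ hn.1).1
    linarith [hn.2]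
  · filter_upwards [h] with n hn
    exact (prob_compl _ _ hn.1).2

theorem kk_tendsto : Tendsto kk atTop atTop := by
  refine tendsto_atTop.2 fun b => ?_
  filter_upwards [eventually_ge_atTop (2 ^ (64 * b))] with n hn
  have := Nat.le_log_of_pow_le (by norm_num) hn
  unfold kk; omega

theorem kk_bounds {n : ℕ} (hk : 1 ≤ kk n) :
    2 ^ (64 * kk n) ≤ n ∧ n < 2 ^ (64 * kk n + 64) := by
  have hn : n ≠ 0 := by rintro rfl; simp [kk] at hk
  constructor
  · refine le_trans (Nat.pow_le_pow_right (by norm_num) ?_) (Nat.pow_log_le_self 2 hn)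
    unfold kk; omega
  · refine lt_of_lt_of_le (Nat.lt_pow_succ_log_self (b := 2) (by norm_num) n)
      (Nat.pow_le_pow_right (by norm_num) ?_)
    unfold kk; omega

theorem mk_le {n : ℕ} (_hk : 1 ≤ kk n) : mm n * kk n ≤ 2 ^ (33 * kk n) := by
  have : kk n ≤ 2 ^ kk n := Nat.lt_two_pow_self.le
  calc mm n * kk n ≤ 2 ^ (32 * kk n) * 2 ^ kk n := Nat.mul_le_mul_left _ this
    _ = _ := by rw [← pow_add]; congr 1; ring

theorem mk_small {n : ℕ} (hk : 1 ≤ kk n) : 2 ^ 31 * (mm n * kk n) ≤ n := by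
  refine le_trans ?_ (kk_bounds hk).1
  refine (Nat.mul_le_mul_left _ (mk_le hk)).trans ?_
  rw [← pow_add]; exact Nat.pow_le_pow_right (by norm_num) (by omega)

theorem choose_bounds {n : ℕ} (hn : 2 ≤ n) : n ^ 2 ≤ 4 * n.choose 2 ∧ 2 * n.choose 2 ≤ n ^ 2 := by
  have h : 2 * n.choose 2 = n * (n - 1) := by
    rw [Nat.choose_two_right, Nat.mul_div_cancel' (Nat.even_mul_pred_self n).two_dvd]
  obtain ⟨a, rfl⟩ : ∃ a, n = a + 2 := ⟨n - 2, by omega⟩
  have : a + 2 - 1 = a + 1 := by omega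
  rw [this] at h
  constructor <;> nlinarith

theorem fail_prob {n : ℕ} (hk : 1 ≤ kk n) :
    prob n (fun σ => ¬ Done (mm n) (kk n) (run (mm n) (kk n) ((List.ofFn σ).take (n / 4))).1) ≤
      2 * Real.exp (-(kk n : ℝ)) := by
  have h1 := mk_small hk
  have hm1 : 1 ≤ mm n := Nat.one_le_two_pow
  have h2 : mm n ≤ mm n * kk n := Nat.le_mul_of_pos_right _ hk
  have h2' : kk n ≤ mm n * kk n := Nat.le_mul_of_pos_left _ hm1
  have hn : 2 ≤ n := by omega
  obtain ⟨h3, h4⟩ := choose_bounds hn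
  have h5 : 2 * (n / 4) ^ 2 ≤ n.choose 2 := by
    have : 4 * (n / 4) ≤ n := Nat.mul_div_le n 4
    have := Nat.pow_le_pow_left this 2
    nlinarith
  have h0 : 0 < n.choose 2 := Nat.choose_pos hn
  refine (transfer (card_edge n) h5 h0
    (fun l => ¬ Done (mm n) (kk n) (run (mm n) (kk n) l).1)).trans ?_
  refine mul_le_mul_of_nonneg_left ?_ (by norm_num)
  have hn' : (0 : ℝ) < n := by positivity
  have hη : 4 * (1 / (8 * n) : ℝ) * Fintype.card (Edge n) ≤ (n / 2 - mm n * kk n : ℕ) := by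
    rw [card_edge]
    have h6 : n ≤ 4 * (n / 2 - mm n * kk n) := by omega
    have h7 : (n : ℝ) ≤ 4 * (n / 2 - mm n * kk n : ℕ) := by exact_mod_cast h6
    have h8 : 2 * (n.choose 2 : ℝ) ≤ n ^ 2 := by exact_mod_cast h4
    have : 4 * (1 / (8 * n) : ℝ) * n.choose 2 = n.choose 2 / (2 * n) := by field_simp; ring
    rw [this, div_le_iff₀ (by positivity)]
    nlinarith
  have hT : 2 * (1 / (8 * n) : ℝ) * (n / 4 : ℕ) ≤ 1 := by
    have h7 : ((n / 4 : ℕ) : ℝ) ≤ n := by exact_mod_cast Nat.div_le_self _ _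
    have : 2 * (1 / (8 * n) : ℝ) * (n / 4 : ℕ) = (n / 4 : ℕ) / (4 * n) := by field_simp; ring
    rw [this, div_le_one (by positivity)]; linarith
  have h6 := fail_le (by positivity) (by rw [card_edge]; exact h0) hη (n / 4) hT
    (inv_init (h2.trans (by omega)) hk)
  rw [card_edge] at h6
  rw [div_le_iff₀ (by positivity), mul_comm]
  refine h6.trans (mul_le_mul_of_nonneg_left (Real.exp_le_exp.2 (neg_le_neg ?_)) (by positivity))
  have h7 : ∀ i ∈ range (mm n), (1 / 2 ^ (15 * kk n) : ℝ) ≤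
      psi (kk n) (1 / (8 * n)) (init (mm n)).1 (n / 4) i := by
    intro i hi
    have hr : rr (kk n) (init (mm n)).1 i ≤ 2 * kk n := by
      classical
      have : rr (kk n) (init (mm n)).1 i ≤ ∑ a ∈ ({2, 3} : Finset ℕ), sz (kk n) a := by
        rw [rr, ← sum_filter]
        refine sum_le_sum_of_subset fun a ha => ?_
        have := (mem_filter.1 ha).2.2.2.2
        simp only [init, mem_product, mem_singleton, mem_insert] at this ⊢
        omega
      rw [sum_pair (by norm_num)] at this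
      have h8 := sz_le' one_pos hk
      rw [sz_eq one_pos hk] at h8
      norm_num at h8
      omega
    set r := rr (kk n) (init (mm n)).1 i with hr'
    have h8 : ((n / 4 + 1 - r : ℕ) : ℝ) ^ r ≤ (n / 4).descFactorial r := by
      exact_mod_cast Nat.pow_sub_le_descFactorial _ _
    have h9 : (n : ℝ) ≤ 8 * (n / 4 + 1 - r : ℕ) := by exact_mod_cast (by omega)
    have h10 : (1 / 64 : ℝ) ≤ 1 / (8 * n) * (n / 4 + 1 - r : ℕ) := by
      rw [div_mul_eq_mul_div, div_le_div_iff₀ (by norm_num) (by positivity)]; linarith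
    have h11 : (1 / 64 : ℝ) ^ (2 * kk n) ≤ (1 / (8 * n)) ^ r * (n / 4).descFactorial r := by
      refine (pow_le_pow_of_le_one (by norm_num) (by norm_num) hr).trans ?_
      refine (pow_le_pow_left₀ (by norm_num) h10 r).trans ?_
      rw [mul_pow]
      exact mul_le_mul_of_nonneg_left h8 (by positivity)
    have h12 := one_le_pp (k := kk n) (init (mm n)).1 i
    rw [psi, ← hr']
    refine le_trans (le_of_eq ?_) (div_le_div₀ (by positivity) h11 (by linarith) (pp_le _ _))
    rw [pow_mul, pow_mul, ← div_pow, ← one_div_pow]; norm_num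
  refine le_trans ?_ (sum_le_sum h7)
  rw [sum_const, card_range, nsmul_eq_mul, mul_one_div, le_div_iff₀ (by positivity), mm]
  have : kk n ≤ 2 ^ kk n := Nat.lt_two_pow_self.le
  have h8 : kk n * 2 ^ (15 * kk n) ≤ 2 ^ (32 * kk n) := by
    refine (Nat.mul_le_mul_right _ this).trans ?_
    rw [← pow_add]; exact Nat.pow_le_pow_right (by norm_num) (by omega)
  exact_mod_cast h8

theorem early_prob {n : ℕ} (hk : 1 ≤ kk n) :
    prob n (fun σ => procGraph σ (n / 2 ^ 130) ∈ HasTree n) ≤ 2 ^ 193 * (1 / 2) ^ kk n := by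
  classical
  have hb := kk_bounds hk
  have hn : 2 ≤ n := le_trans (by
    calc 2 = 2 ^ 1 := rfl
      _ ≤ _ := Nat.pow_le_pow_right (by norm_num) (by omega)) hb.1
  obtain ⟨h3, h4⟩ := choose_bounds hn
  set t := n / 2 ^ 130 with ht
  have ht' : 2 ^ 130 * t ≤ n := Nat.mul_div_le _ _
  have h5 : 2 * t ^ 2 ≤ n.choose 2 := by
    have : 4 * t ≤ n := by omega
    have := Nat.pow_le_pow_left this 2
    nlinarith
  have h0 : 0 < n.choose 2 := Nat.choose_pos hn
  have htN : t ≤ n.choose 2 := by nlinarith [Nat.le_self_pow (two_ne_zero) t]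
  set k := kk n with hkdef
  let Sf : (Fin k → Fin n) → Finset (Edge n) := fun ψ =>
    univ.filter fun e => ∃ a b : Fin k, (a + 1 : ℕ) = (b + 1) / 2 ∧ e.1 = s(ψ a, ψ b)
  let I : Finset (Fin k → Fin n) := univ.filter fun ψ => k - 1 ≤ (Sf ψ).card
  let B : List (Edge n) → Prop := fun l => ∃ ψ ∈ I, ∀ e ∈ Sf ψ, e ∈ l
  have h6 : ∀ σ : Ordering n, procGraph σ t ∈ HasTree n → B ((List.ofFn σ).take t) := by
    rintro σ ⟨φ, h1, h2⟩
    refine ⟨fun a => φ (a + 1), mem_filter.2 ⟨mem_univ _, ?_⟩, fun e he => ?_⟩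
    · have h7 : k - 1 = (Icc 2 k).attach.card := by simp
      rw [h7]
      refine card_le_card_of_injOn (fun a => ⟨s(φ (a.1 / 2), φ a.1), (h2 a.1 a.2).ne⟩)
        (fun a _ => ?_) fun a _ b _ e => ?_
      · have ha := mem_Icc.1 a.2
        simp only [Sf, coe_filter, mem_univ, true_and, Set.mem_ofPred_eq]
        refine ⟨⟨a.1 / 2 - 1, by omega⟩, ⟨a.1 - 1, by omega⟩, by simp only; omega, ?_⟩
        simp only
        congr 3 <;> omega
      · have ha := mem_Icc.1 a.2
        have hb := mem_Icc.1 b.2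
        have m1 : ∀ c, 1 ≤ c → c ≤ k → c ∈ ((Icc 1 k : Finset ℕ) : Set ℕ) := fun c h h' =>
          mem_coe.2 (mem_Icc.2 ⟨h, h'⟩)
        rcases Sym2.eq_iff.1 (congrArg Subtype.val e) with ⟨-, e2⟩ | ⟨e1, e2⟩
        · exact Subtype.ext (h1 (m1 _ (by omega) (by omega)) (m1 _ (by omega) (by omega)) e2)
        · have a1 := h1 (m1 _ (by omega) (by omega)) (m1 _ (by omega) (by omega)) e1
          have a2 := h1 (m1 _ (by omega) (by omega)) (m1 _ (by omega) (by omega)) e2
          omega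
    · obtain ⟨a, b, hab, he'⟩ := (mem_filter.1 he).2
      have := b.2
      have h7 := h2 (b + 1) (mem_Icc.2 (by omega))
      obtain ⟨⟨i, hi, hi'⟩, -⟩ := (SimpleGraph.fromEdgeSet_adj _).1 h7
      have h8 : σ i = e := Subtype.ext (by rw [hi', he', ← hab])
      rw [← ofFn_take htN, List.mem_ofFn]
      exact ⟨⟨i, hi⟩, h8⟩
  have h7 : prob n (fun σ => procGraph σ t ∈ HasTree n) ≤
      prob n fun σ => B ((List.ofFn σ).take t) := by
    simp only [prob, Nat.card_eq_fintype_card]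
    refine div_le_div_of_nonneg_right ?_ (Nat.cast_nonneg _)
    exact_mod_cast Fintype.card_subtype_mono _ _ h6
  refine h7.trans ((transfer (card_edge n) h5 h0 B).trans ?_)
  set N : ℝ := (n.choose 2 : ℝ) with hN
  have hN0 : 0 < N := by rw [hN]; exact_mod_cast h0
  have hq : (t : ℝ) / N ≤ 1 := by rw [div_le_one hN0, hN]; exact_mod_cast htN
  have h8 : ∀ ψ ∈ I, (cnt t (fun l => ∀ e ∈ Sf ψ, e ∈ l) : ℝ) ≤ N ^ t * (t / N) ^ (k - 1) := by
    intro ψ hψ
    have h9 := cnt_subset t (Sf ψ)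
    rw [card_edge] at h9
    have h10 : (cnt t (fun l => ∀ e ∈ Sf ψ, e ∈ l) : ℝ) * N ^ (Sf ψ).card ≤
        t ^ (Sf ψ).card * N ^ t := by rw [hN]; exact_mod_cast h9
    rw [← le_div_iff₀ (by positivity), mul_comm, mul_div_assoc, ← div_pow] at h10
    exact h10.trans (mul_le_mul_of_nonneg_left
      (pow_le_pow_of_le_one (by positivity) hq (mem_filter.1 hψ).2) (by positivity))
  have h9 : (cnt t B : ℝ) ≤ n ^ k * (N ^ t * (t / N) ^ (k - 1)) := by
    have h10 : (cnt t B : ℝ) ≤ ∑ ψ ∈ I, (cnt t (fun l => ∀ e ∈ Sf ψ, e ∈ l) : ℝ) := by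
      exact_mod_cast cnt_union I t fun ψ l => ∀ e ∈ Sf ψ, e ∈ l
    refine h10.trans ((sum_le_card_nsmul _ _ _ h8).trans ?_)
    rw [nsmul_eq_mul]
    refine mul_le_mul_of_nonneg_right ?_ (by positivity)
    have : I.card ≤ n ^ k := (card_le_univ _).trans (by simp)
    exact_mod_cast this
  have h10 : (n : ℝ) * (t / N) ≤ (1 / 2) ^ 128 := by
    have a1 : (2 : ℝ) ^ 130 * t ≤ n := by exact_mod_cast ht'
    have a2 : (n : ℝ) ^ 2 ≤ 4 * N := by rw [hN]; exact_mod_cast h3
    have a3 : (0 : ℝ) ≤ n := Nat.cast_nonneg _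
    rw [← mul_div_assoc, div_le_iff₀ hN0]
    have a4 : (t : ℝ) ≤ (1 / 2) ^ 130 * n := by
      rw [one_div_pow, one_div, le_inv_mul_iff₀ (by positivity)]; exact a1
    calc (n : ℝ) * t ≤ n * ((1 / 2) ^ 130 * n) := mul_le_mul_of_nonneg_left a4 a3
      _ = (1 / 2) ^ 130 * n ^ 2 := by ring
      _ ≤ (1 / 2) ^ 130 * (4 * N) := mul_le_mul_of_nonneg_left a2 (by positivity)
      _ = _ := by ring
  have h11 : (n : ℝ) ≤ 2 ^ (64 * k + 64) := by exact_mod_cast hb.2.le
  obtain ⟨j, hj⟩ : ∃ j, k = j + 1 := ⟨k - 1, by omega⟩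
  rw [hj, Nat.add_sub_cancel] at h9
  rw [hj] at h11 ⊢
  have h12 : (cnt t B : ℝ) / N ^ t ≤ n * (n * (t / N)) ^ j := by
    rw [div_le_iff₀ (by positivity)]
    refine h9.trans (le_of_eq ?_)
    rw [mul_pow]; ring
  have h13 : ((n : ℝ) * (t / N)) ^ j ≤ ((1 / 2) ^ 128) ^ j :=
    pow_le_pow_left₀ (by positivity) h10 j
  have h14 : (2 : ℝ) ^ (64 * (j + 1) + 64) * ((1 / 2) ^ 128) ^ j = 2 ^ 128 * ((1 / 2) ^ 64) ^ j := by
    have : (2 : ℝ) ^ (64 * (j + 1) + 64) = 2 ^ 128 * (2 ^ 64) ^ j := by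
      rw [← pow_mul, ← pow_add]; congr 1; ring
    rw [this, mul_assoc, ← mul_pow]; norm_num
  have h15 : (((1 : ℝ) / 2) ^ 64) ^ j ≤ (1 / 2) ^ j :=
    pow_le_pow_left₀ (by positivity) (by norm_num) j
  have h16 : (n : ℝ) * (n * (t / N)) ^ j ≤ 2 ^ 128 * (1 / 2) ^ j := by
    refine (mul_le_mul h11 h13 (by positivity) (by positivity)).trans ?_
    rw [h14]
    exact mul_le_mul_of_nonneg_left h15 (by positivity)
  have h17 : (0 : ℝ) ≤ (1 / 2) ^ j := by positivity
  rw [pow_succ (1 / 2 : ℝ) j]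
  refine (mul_le_mul_of_nonneg_left (h12.trans h16) (by norm_num)).trans ?_
  generalize (1 / 2 : ℝ) ^ j = y at h17
  calc 2 * (2 ^ 128 * y) = 2 ^ 129 * y := by ring
    _ ≤ 2 ^ 192 * y := mul_le_mul_of_nonneg_right (by norm_num) h17
    _ = _ := by ring

theorem main : ∃ P : Property, IsoClosed P ∧ Increasing P ∧ BoundedDegree P ∧
    (∃ c C : ℝ, 0 < c ∧ 0 < C ∧
      Aas fun n σ => c * n ≤ hitting (P n) σ ∧ hitting (P n) σ ≤ C * n) ∧
    ∃ (t b : ℕ → ℕ) (S : (n : ℕ) → Strategy n),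
      ((fun n => (t n : ℝ)) =Θ[atTop] fun n => (n : ℝ)) ∧
      ((fun n => (b n : ℝ)) =o[atTop] fun n => (t n : ℝ) / Real.log n) ∧
      (∀ᶠ n in atTop, b n ^ 3 ≤ t n ^ 2) ∧
      (∀ n σ, (bought (S n) σ (t n)).ncard ≤ b n) ∧
      Aas fun n σ => graphOf σ (bought (S n) σ (t n)) ∈ P n := by
  classical
  have hev : ∀ᶠ n in atTop, 1 ≤ kk n := kk_tendsto.eventually_ge_atTop 1
  have hm : ∀ n, 1 ≤ kk n → mm n ≤ n := fun n hk =>
    (Nat.le_mul_of_pos_right _ hk).trans (by have := mk_small hk; omega)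
  have hu1 : Tendsto (fun n => 2 * Real.exp (-(kk n : ℝ))) atTop (nhds 0) := by
    have := (Real.tendsto_exp_neg_atTop_nhds_zero.comp
      (tendsto_natCast_atTop_atTop.comp kk_tendsto)).const_mul 2
    simpa using this
  have hu0 : Tendsto (fun n => (1 / 2 : ℝ) ^ kk n) atTop (nhds 0) :=
    (tendsto_pow_atTop_nhds_zero_of_lt_one (r := (1 / 2 : ℝ)) (by norm_num)
      (by norm_num)).comp kk_tendsto
  have hu2 : Tendsto (fun n => 2 ^ 193 * (1 / 2 : ℝ) ^ kk n) atTop (nhds 0) := by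
    simpa using hu0.const_mul (2 ^ 193)
  refine ⟨HasTree, iso_closed, increasing, bounded_degree, ⟨1 / 2 ^ 130, 1, by positivity,
    one_pos, ?_⟩, fun n => n / 4, fun n => if 1 ≤ kk n then mm n * kk n else n,
    fun n => strat n (mm n) (kk n), ?_, ?_, ?_, ?_, ?_⟩
  · refine aas_of _ (fun n σ => procGraph σ (n / 2 ^ 130) ∈ HasTree n ∨
      ¬ Done (mm n) (kk n) (run (mm n) (kk n) ((List.ofFn σ).take (n / 4))).1) _
      (by simpa using hu2.add hu1) ?_
    filter_upwards [hev] with n hk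
    refine ⟨fun σ h => ?_, (prob_or _ _).trans (by
      simpa using add_le_add (early_prob hk) (fail_prob hk))⟩
    rw [not_or, not_not] at h
    have mono : ∀ I J : Set (Fin (n.choose 2)), I ⊆ J → graphOf σ I ≤ graphOf σ J :=
      fun I J hIJ => SimpleGraph.fromEdgeSet_mono fun e ⟨i, hi, he⟩ => ⟨i, hIJ hi, he⟩
    have h1 : procGraph σ (n / 4) ∈ HasTree n :=
      increasing n _ _ (mono _ _ fun i hi => hi.1) (tree_of_done (hm n hk) hk σ _ h.2)
    have h2 : hitting (HasTree n) σ ≤ n / 4 := Nat.sInf_le h1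
    have h3 : procGraph σ (hitting (HasTree n) σ) ∈ HasTree n :=
      Nat.sInf_mem (s := {t | procGraph σ t ∈ HasTree n}) ⟨_, h1⟩
    have h4 : n / 2 ^ 130 < hitting (HasTree n) σ := by
      by_contra h5
      exact h.1 (increasing n _ _ (mono _ _ fun i hi => lt_of_lt_of_le hi (not_lt.1 h5)) h3)
    constructor
    · have h5 : n ≤ hitting (HasTree n) σ * 2 ^ 130 :=
        ((Nat.div_lt_iff_lt_mul (by positivity)).1 h4).le
      rw [one_div, inv_mul_le_iff₀ (by positivity), mul_comm]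
      exact_mod_cast h5
    · rw [one_mul]; exact_mod_cast h2.trans (Nat.div_le_self _ _)
  · constructor
    · refine Asymptotics.IsBigO.of_bound 1 (Eventually.of_forall fun n => ?_)
      simp only [Real.norm_natCast, one_mul]
      exact_mod_cast Nat.div_le_self _ _
    · refine Asymptotics.IsBigO.of_bound 8 ?_
      filter_upwards [eventually_ge_atTop 8] with n hn
      simp only [Real.norm_natCast]
      exact_mod_cast (by omega)
  · refine Asymptotics.isLittleO_iff.2 fun c hc => ?_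
    filter_upwards [hev, (hu0.const_mul (2 ^ 10)).eventually (ge_mem_nhds (by simpa using hc))]
      with n hk h1
    rw [if_pos hk]
    have hb := kk_bounds hk
    have h2 := mk_small hk
    have h2' : 1 ≤ mm n * kk n := Nat.mul_pos (Nat.one_le_two_pow) hk
    have hn : (1 : ℝ) < n := by exact_mod_cast (by omega)
    have hl := Real.log_pos hn
    rw [Real.norm_natCast, Real.norm_of_nonneg (by positivity), ← mul_div_assoc, le_div_iff₀ hl]
    have h3 : Real.log n ≤ 2 ^ 7 * 2 ^ kk n := by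
      have a1 : (n : ℝ) ≤ 2 ^ (64 * kk n + 64) := by exact_mod_cast hb.2.le
      have a2 := Real.log_le_log (by linarith) a1
      rw [Real.log_pow] at a2
      have a3 : Real.log 2 ≤ 1 := by linarith [Real.log_two_lt_d9]
      have a4 : ((64 * kk n + 64 : ℕ) : ℝ) ≤ 2 ^ 7 * 2 ^ kk n := by
        have : kk n < 2 ^ kk n := Nat.lt_two_pow_self
        exact_mod_cast (by omega)
      exact a2.trans ((mul_le_of_le_one_right (Nat.cast_nonneg _) a3).trans a4)
    have h4 : ((mm n * kk n : ℕ) : ℝ) ≤ 2 ^ (33 * kk n) := by exact_mod_cast mk_le hk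
    have h5' : 2 ^ (64 * kk n) ≤ 8 * (n / 4) := hb.1.trans (by clear hb; omega)
    have h5 : (2 : ℝ) ^ (64 * kk n) ≤ 8 * (n / 4 : ℕ) := by exact_mod_cast h5'
    have h6 : (2 : ℝ) ^ (33 * kk n) * 2 ^ kk n ≤ (1 / 2) ^ kk n * 2 ^ (64 * kk n) := by
      rw [one_div_pow, div_mul_eq_mul_div, one_mul, le_div_iff₀ (by positivity), ← pow_add,
        ← pow_add]
      exact pow_le_pow_right₀ (by norm_num) (by omega)
    have h7 : (0 : ℝ) ≤ (1 / 2) ^ kk n := by positivity
    calc ((mm n * kk n : ℕ) : ℝ) * Real.log n ≤ 2 ^ (33 * kk n) * (2 ^ 7 * 2 ^ kk n) :=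
          mul_le_mul h4 h3 hl.le (by positivity)
      _ = 2 ^ 7 * (2 ^ (33 * kk n) * 2 ^ kk n) := by ring
      _ ≤ 2 ^ 7 * ((1 / 2) ^ kk n * (8 * (n / 4 : ℕ))) :=
          mul_le_mul_of_nonneg_left (h6.trans (mul_le_mul_of_nonneg_left h5 h7)) (by positivity)
      _ = (2 ^ 10 * (1 / 2) ^ kk n) * (n / 4 : ℕ) := by ring
      _ ≤ _ := mul_le_mul_of_nonneg_right h1 (Nat.cast_nonneg _)
  · filter_upwards [hev] with n hk
    rw [if_pos hk]
    have hb := kk_bounds hk
    have h2 := mk_small hk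
    have h2' : 1 ≤ mm n * kk n := Nat.mul_pos (Nat.one_le_two_pow) hk
    have h3 : 2 ^ (64 * kk n - 3) ≤ n / 4 := by
      have : 2 ^ (64 * kk n) = 2 ^ (64 * kk n - 3) * 2 ^ 3 := by
        rw [← pow_add]; congr 1; omega
      omega
    refine (Nat.pow_le_pow_left (mk_le hk) 3).trans (le_trans ?_ (Nat.pow_le_pow_left h3 2))
    rw [← pow_mul, ← pow_mul]
    exact Nat.pow_le_pow_right (by norm_num) (by omega)
  · intro n σ
    simp only
    split_ifs with hk
    · obtain ⟨h1, h2, -⟩ := run_spec (hm n hk) hk σ (n / 4)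
      exact h2.trans h1.card_le
    · refine le_trans (Set.ncard_le_ncard_of_injOn (t := (range n : Set ℕ)) Fin.val
        (fun i hi => ?_) Fin.val_injective.injOn) (by simp)
      exact mem_coe.2 (mem_range.2 (lt_of_lt_of_le hi.1 (Nat.div_le_self _ _)))
  · refine aas_of _ (fun n σ =>
      ¬ Done (mm n) (kk n) (run (mm n) (kk n) ((List.ofFn σ).take (n / 4))).1) _ hu1 ?_
    filter_upwards [hev] with n hk
    exact ⟨fun σ h => tree_of_done (hm n hk) hk σ _ (not_not.1 h), fail_prob hk⟩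

end H749Z.Bud
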